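import Mathlib

/-!
# Sun's congruence for the weighted alternating sum of `a(n)` modulo `p²`

We prove `∑_{k<p} (-1)^k (42k+37) a(k) ≡ p (21 (p/7) + 16) (mod p²)` for every prime `p ≠ 7`.

Write `M_m = ∑_{n<p} (-1)^n C(n,m)²` and `V_m = ∑_{n<p} (-1)^n n C(n,m)²`.  Two telescoping
identities give, modulo `p²` and for `1 ≤ m < p`,
`4 (m+1) M_{m+1} ≡ - m M_{m-1}` and `4 V_m ≡ 2 (m-1) M_m + m M_{m-1}`.
By induction this evaluates every inner sum, and the total is congruent modulo `p²` to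
`2 ∑_{k ≤ (p-1)/2} (21k+8) C(2k,k)³ + 21 p ∑_{k ≤ (p-1)/2} 16^k C(2k,k)`.
The first sum is `8p` modulo `p²` by the identity
`∑_{k<n} (21k+8) C(2k,k)³ = 4 n C(2n,n) ∑_{k<n} C(n+k-1,k)²`, and the second is
`(1-64)^((p-1)/2)` modulo `p`, which is the Legendre symbol of `-7`.
-/

open Finset

namespace Pool.Agent.Results.MP_07dc7c_nt.SunCongruence

/-- `a(n) = ∑_{0 ≤ k ≤ n/2} (-16)^k C(n,k)² C(n-k,k)²`. -/
def a (n : ℕ) : ℤ :=
  ∑ k ∈ range (n / 2 + 1), (-16) ^ k * (n.choose k : ℤ) ^ 2 * ((n - k).choose k : ℤ) ^ 2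

/-- `S(p) = ∑_{k=0}^{p-1} (-1)^k (42k+37) a(k)`. -/
def S (p : ℕ) : ℤ := ∑ k ∈ range p, (-1) ^ k * (42 * k + 37) * a k

/-! ### Telescoping identities -/

lemma choose_rel (n m : ℕ) :
    ((m : ℤ) + 1) * (n.choose (m + 1) : ℤ) = ((n : ℤ) - m) * (n.choose m : ℤ) := by
  have h := Nat.choose_succ_right_eq n m
  rcases le_total m n with hmn | hmn
  · have h2 : (((n.choose (m + 1) * (m + 1) : ℕ)) : ℤ) = ((n.choose m * (n - m) : ℕ) : ℤ) := by
      rw [h]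
    push_cast [Nat.cast_sub hmn] at h2
    linarith
  · rcases eq_or_lt_of_le hmn with e | hlt
    · subst e
      simp [Nat.choose_succ_self]
    · rw [Nat.choose_eq_zero_of_lt (by omega), Nat.choose_eq_zero_of_lt hlt]
      simp

/-- alternating sums of `R (n+1) + R n` telescope -/
lemma alt_telescope (R : ℕ → ℤ) (N : ℕ) :
    ∑ n ∈ range N, (-1) ^ n * (R (n + 1) + R n) = R 0 - (-1) ^ N * R N := by
  induction N with
  | zero => simp
  | succ N ih =>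
    rw [sum_range_succ, ih]
    ring

/-- `M m N = ∑_{n<N} (-1)^n C(n,m)²` -/
def M (m N : ℕ) : ℤ := ∑ n ∈ range N, (-1) ^ n * (n.choose m : ℤ) ^ 2

/-- `V m N = ∑_{n<N} (-1)^n n C(n,m)²` -/
def V (m N : ℕ) : ℤ := ∑ n ∈ range N, (-1) ^ n * ((n : ℤ) * (n.choose m : ℤ) ^ 2)

/-- the telescoper for `M` -/
def R1 (m n : ℕ) : ℤ :=
  (2 * (n : ℤ) ^ 2 - (6 * ((m : ℤ) + 1) + 2) * n + 5 * ((m : ℤ) + 1) ^ 2 + 3 * ((m : ℤ) + 1))
    * (n.choose (m + 1) : ℤ) ^ 2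

lemma R1_rel (m n : ℕ) :
    4 * ((m : ℤ) + 2) ^ 2 * (n.choose (m + 2) : ℤ) ^ 2
      + ((m : ℤ) + 1) * ((m : ℤ) + 2) * (n.choose m : ℤ) ^ 2 = R1 m (n + 1) + R1 m n := by
  have h1 := choose_rel n m
  have h2 := choose_rel n (m + 1)
  have h3 : ((n + 1).choose (m + 1) : ℤ) = n.choose m + n.choose (m + 1) := by
    rw [Nat.choose_succ_succ]; push_cast; ring
  unfold R1
  rw [h3]
  push_cast at h2 ⊢
  generalize (n.choose m : ℤ) = x at *
  generalize (n.choose (m + 1) : ℤ) = y at *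
  have h4 : ((m : ℤ) + 1 + 1) = (m : ℤ) + 2 := by ring
  rw [h4, show m + 1 + 1 = m + 2 from rfl] at h2
  have h5 : 4 * ((m : ℤ) + 2) ^ 2 * (n.choose (m + 2) : ℤ) ^ 2
      = 4 * (((m : ℤ) + 2) * (n.choose (m + 2) : ℤ)) ^ 2 := by ring
  rw [h5, h2]
  linear_combination ((2 * (n : ℤ) - 4 * m - 4) * x + (4 * (n : ℤ) - 6 * ((m : ℤ) + 1)) * y) * h1

/-- the telescoper for `V` -/
def R2 (m n : ℕ) : ℤ := (2 * (n : ℤ) - 3 * ((m : ℤ) + 1)) * (n.choose (m + 1) : ℤ) ^ 2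

lemma R2_rel (m n : ℕ) :
    4 * ((n : ℤ) * (n.choose (m + 1) : ℤ) ^ 2) - 2 * (m : ℤ) * (n.choose (m + 1) : ℤ) ^ 2
      - ((m : ℤ) + 1) * (n.choose m : ℤ) ^ 2 = R2 m (n + 1) + R2 m n := by
  have h1 := choose_rel n m
  have h3 : ((n + 1).choose (m + 1) : ℤ) = n.choose m + n.choose (m + 1) := by
    rw [Nat.choose_succ_succ]; push_cast; ring
  unfold R2
  rw [h3]
  push_cast
  generalize (n.choose m : ℤ) = x at *
  generalize (n.choose (m + 1) : ℤ) = y at *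
  linear_combination (2 * x + 4 * y) * h1

lemma M_rec (m N : ℕ) (hN : Odd N) :
    4 * ((m : ℤ) + 2) ^ 2 * M (m + 2) N + ((m : ℤ) + 1) * ((m : ℤ) + 2) * M m N = R1 m N := by
  have h := alt_telescope (R1 m) N
  have h0 : R1 m 0 = 0 := by simp [R1]
  rw [h0, hN.neg_one_pow] at h
  have : 4 * ((m : ℤ) + 2) ^ 2 * M (m + 2) N + ((m : ℤ) + 1) * ((m : ℤ) + 2) * M m N
      = ∑ n ∈ range N, (-1) ^ n * (R1 m (n + 1) + R1 m n) := by
    unfold M
    rw [mul_sum, mul_sum, ← sum_add_distrib]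
    refine sum_congr rfl (fun n _ => ?_)
    rw [← R1_rel]
    ring
  rw [this, h]
  ring

lemma V_rec (m N : ℕ) (hN : Odd N) :
    4 * V (m + 1) N - 2 * (m : ℤ) * M (m + 1) N - ((m : ℤ) + 1) * M m N = R2 m N := by
  have h := alt_telescope (R2 m) N
  have h0 : R2 m 0 = 0 := by simp [R2]
  rw [h0, hN.neg_one_pow] at h
  have : 4 * V (m + 1) N - 2 * (m : ℤ) * M (m + 1) N - ((m : ℤ) + 1) * M m N
      = ∑ n ∈ range N, (-1) ^ n * (R2 m (n + 1) + R2 m n) := by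
    unfold M V
    rw [mul_sum, mul_sum, mul_sum, ← sum_sub_distrib, ← sum_sub_distrib]
    refine sum_congr rfl (fun n _ => ?_)
    rw [← R2_rel]
    ring
  rw [this, h]
  ring

lemma R1_mod {p m : ℕ} (hp : p.Prime) (hm : m + 1 < p) : R1 m p ≡ 0 [ZMOD (p : ℤ) ^ 2] := by
  rw [Int.modEq_zero_iff_dvd]
  unfold R1
  refine Dvd.dvd.mul_left ?_ _
  refine pow_dvd_pow_of_dvd ?_ 2
  exact_mod_cast hp.dvd_choose_self (by omega) hm

lemma R2_mod {p m : ℕ} (hp : p.Prime) (hm : m + 1 < p) : R2 m p ≡ 0 [ZMOD (p : ℤ) ^ 2] := by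
  rw [Int.modEq_zero_iff_dvd]
  unfold R2
  refine Dvd.dvd.mul_left ?_ _
  refine pow_dvd_pow_of_dvd ?_ 2
  exact_mod_cast hp.dvd_choose_self (by omega) hm

/-! ### The values of `M` and `V` modulo `p²` -/

lemma cancel {p c : ℕ} {x y : ℤ} (hp : p.Prime) (h0 : 0 < c) (hc : c < p)
    (h : (c : ℤ) * x ≡ c * y [ZMOD (p : ℤ) ^ 2]) : x ≡ y [ZMOD (p : ℤ) ^ 2] := by
  rw [Int.modEq_iff_dvd] at h ⊢
  rw [← mul_sub] at h
  refine IsCoprime.dvd_of_dvd_mul_left ?_ h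
  refine IsCoprime.pow_left ?_
  rw [Nat.isCoprime_iff_coprime]
  exact (Nat.Prime.coprime_iff_not_dvd hp).2 (Nat.not_dvd_of_pos_of_lt h0 hc)

lemma M_step {p m : ℕ} (hp : p.Prime) (hodd : Odd p) (hm : m + 2 < p) :
    4 * ((m : ℤ) + 2) * M (m + 2) p ≡ - (((m : ℤ) + 1) * M m p) [ZMOD (p : ℤ) ^ 2] := by
  have h1 : 4 * ((m : ℤ) + 2) ^ 2 * M (m + 2) p + ((m : ℤ) + 1) * ((m : ℤ) + 2) * M m p
      ≡ 0 [ZMOD (p : ℤ) ^ 2] := by
    rw [M_rec m p hodd]
    exact R1_mod hp (by omega)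
  refine cancel (c := m + 2) hp (by omega) hm ?_
  rw [Int.modEq_iff_dvd] at h1 ⊢
  have : ((m + 2 : ℕ) : ℤ) * (-(((m : ℤ) + 1) * M m p)) - ((m + 2 : ℕ) : ℤ) * (4 * ((m : ℤ) + 2) * M (m + 2) p)
      = 0 - (4 * ((m : ℤ) + 2) ^ 2 * M (m + 2) p + ((m : ℤ) + 1) * ((m : ℤ) + 2) * M m p) := by
    push_cast; ring
  rw [this]
  exact h1

lemma M_zero {N : ℕ} (hN : Odd N) : M 0 N = 1 := by
  unfold M
  obtain ⟨j, rfl⟩ := hN
  induction j with
  | zero => simp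
  | succ j ih =>
    rw [show 2 * (j + 1) + 1 = (2 * j + 1) + 1 + 1 by ring, sum_range_succ, sum_range_succ, ih]
    simp [pow_succ, pow_mul]

lemma M_one {N : ℕ} (hN : Odd N) : 2 * M 1 N = (N : ℤ) * (N - 1) := by
  unfold M
  obtain ⟨j, rfl⟩ := hN
  induction j with
  | zero => simp
  | succ j ih =>
    rw [show 2 * (j + 1) + 1 = (2 * j + 1) + 1 + 1 by ring, sum_range_succ, sum_range_succ, mul_add,
      mul_add, ih]
    simp [pow_succ, pow_mul]
    ring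

lemma centralBinom_rel (k : ℕ) :
    ((k : ℤ) + 1) * ((k + 1).centralBinom : ℤ) = 2 * (2 * k + 1) * (k.centralBinom : ℤ) := by
  exact_mod_cast Nat.succ_mul_centralBinom_succ k

lemma M_even {p : ℕ} (hp : p.Prime) (hodd : Odd p) (k : ℕ) (hk : 2 * k < p) :
    16 ^ k * M (2 * k) p ≡ (-1) ^ k * (k.centralBinom : ℤ) [ZMOD (p : ℤ) ^ 2] := by
  induction k with
  | zero => simp [M_zero hodd]
  | succ k ih =>
    have ih := ih (by omega)
    have h := M_step (m := 2 * k) hp hodd (by omega)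
    refine cancel (c := k + 1) hp (by omega) (by omega) ?_
    have hr := centralBinom_rel k
    rw [Int.modEq_iff_dvd] at ih h ⊢
    obtain ⟨u, hu⟩ := ih
    obtain ⟨v, hv⟩ := h
    refine ⟨-2 * (2 * k + 1) * u + 2 * 16 ^ k * v, ?_⟩
    rw [show 2 * (k + 1) = 2 * k + 2 by ring]
    push_cast at hv ⊢
    linear_combination (-1) ^ (k + 1) * hr + (-2 * (2 * (k : ℤ) + 1)) * hu + 2 * 16 ^ k * hv

lemma M_odd {p : ℕ} (hp : p.Prime) (hodd : Odd p) (k : ℕ) (hk : 2 * k + 1 < p) :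
    ((k : ℤ) + 1) * ((k + 1).centralBinom : ℤ) * M (2 * k + 1) p ≡ (-1) ^ (k + 1) * (p : ℤ)
      [ZMOD (p : ℤ) ^ 2] := by
  induction k with
  | zero =>
    have h := M_one hodd
    rw [Int.modEq_iff_dvd]
    refine ⟨-1, ?_⟩
    simp [Nat.centralBinom]
    linear_combination -h
  | succ k ih =>
    have ih := ih (by omega)
    have h := M_step (m := 2 * k + 1) hp hodd (by omega)
    have hr := centralBinom_rel (k + 1)
    refine cancel (c := 2) hp (by omega) (by omega) ?_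
    rw [Int.modEq_iff_dvd] at ih h ⊢
    obtain ⟨u, hu⟩ := ih
    obtain ⟨v, hv⟩ := h
    refine ⟨-2 * u + ((k + 1).centralBinom : ℤ) * v, ?_⟩
    rw [show 2 * (k + 1) + 1 = 2 * k + 1 + 2 by ring]
    push_cast at hv hr ⊢
    linear_combination (-2) * hu + ((k + 1).centralBinom : ℤ) * hv
      + (-2 * M (2 * k + 1 + 2) p) * hr

/-- the inner sum over `n` -/
def T (k N : ℕ) : ℤ := ∑ n ∈ range N, (-1) ^ n * (42 * n + 37) * (n.choose (2 * k) : ℤ) ^ 2

lemma T_eq (k N : ℕ) : T k N = 42 * V (2 * k) N + 37 * M (2 * k) N := by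
  unfold T V M
  rw [mul_sum, mul_sum, ← sum_add_distrib]
  refine sum_congr rfl (fun n _ => ?_)
  ring

lemma V_zero {N : ℕ} (hN : Odd N) : 2 * V 0 N = (N : ℤ) - 1 := by
  unfold V
  obtain ⟨j, rfl⟩ := hN
  induction j with
  | zero => simp
  | succ j ih =>
    rw [show 2 * (j + 1) + 1 = (2 * j + 1) + 1 + 1 by ring, sum_range_succ, sum_range_succ, mul_add,
      mul_add, ih]
    simp [pow_succ, pow_mul]
    ring

lemma T_mod {p : ℕ} (hp : p.Prime) (hodd : Odd p) (k : ℕ) (hk : 2 * k < p) :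
    (-16) ^ k * (k.centralBinom : ℤ) ^ 2 * T k p ≡
      2 * (21 * k + 8) * (k.centralBinom : ℤ) ^ 3 + 21 * p * 16 ^ k * (k.centralBinom : ℤ)
      [ZMOD (p : ℤ) ^ 2] := by
  rw [T_eq]
  rcases Nat.eq_zero_or_pos k with rfl | hk0
  · have h1 := V_zero hodd
    have h2 := M_zero hodd
    simp only [mul_zero]
    rw [h2]
    rw [show 42 * V 0 p = 21 * (2 * V 0 p) by ring, h1]
    simp
    ring_nf
    rfl
  · obtain ⟨j, rfl⟩ : ∃ j, k = j + 1 := ⟨k - 1, by omega⟩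
    have hV := V_rec (2 * j + 1) p hodd
    have hR : R2 (2 * j + 1) p ≡ 0 [ZMOD (p : ℤ) ^ 2] := R2_mod hp (by omega)
    rw [← hV] at hR
    have hE := M_even hp hodd (j + 1) hk
    have hO := M_odd hp hodd j (by omega)
    refine cancel (c := 2) hp (by omega) (by omega) ?_
    rw [Int.modEq_iff_dvd] at hR hE hO ⊢
    obtain ⟨r, hr⟩ := hR
    obtain ⟨u, hu⟩ := hE
    obtain ⟨v, hv⟩ := hO
    rw [show 2 * j + 1 + 1 = 2 * (j + 1) by ring] at hr
    have hs : ((-16 : ℤ)) ^ (j + 1) = (-1) ^ (j + 1) * 16 ^ (j + 1) := by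
      rw [← mul_pow]; norm_num
    have hs2 : ((-1 : ℤ) ^ (j + 1)) * (-1) ^ (j + 1) = 1 := by
      rw [← mul_pow]; norm_num
    rw [hs]
    push_cast at *
    generalize M (2 * (j + 1)) p = A at *
    generalize M (2 * j + 1) p = B at *
    generalize V (2 * (j + 1)) p = W at *
    generalize ((j + 1).centralBinom : ℤ) = c at *
    generalize ((-1 : ℤ)) ^ (j + 1) = e at *
    generalize (16 : ℤ) ^ (j + 1) = f at *
    refine ⟨(84 * j + 116) * e * c ^ 2 * u + 42 * e * f * c * v + 21 * e * f * c ^ 2 * r, ?_⟩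
    linear_combination 21 * e * f * c ^ 2 * hr + (84 * (j : ℤ) + 116) * e * c ^ 2 * hu
      + 42 * e * f * c * hv - ((84 * (j : ℤ) + 116) * c ^ 3 + 42 * p * f * c) * hs2

/-! ### Rewriting `S p` -/

lemma term_eq (n k : ℕ) (hk : 2 * k ≤ n) :
    (n.choose k : ℤ) ^ 2 * ((n - k).choose k : ℤ) ^ 2
      = (k.centralBinom : ℤ) ^ 2 * (n.choose (2 * k) : ℤ) ^ 2 := by
  have h := Nat.choose_mul (n := n) (k := 2 * k) (s := k) (by omega)
  rw [show 2 * k - k = k by omega, ← Nat.centralBinom_eq_two_mul_choose] at h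
  have h' : (n.choose (2 * k) : ℤ) * (k.centralBinom : ℤ) = n.choose k * (n - k).choose k := by
    exact_mod_cast h
  rw [← mul_pow, ← mul_pow, ← h']
  ring

lemma a_eq {n h : ℕ} (hn : n < 2 * h) :
    a n = ∑ k ∈ range h, (-16) ^ k * (k.centralBinom : ℤ) ^ 2 * (n.choose (2 * k) : ℤ) ^ 2 := by
  unfold a
  have hsub : range (n / 2 + 1) ⊆ range h := by
    rw [range_subset_range]; omega
  rw [← sum_subset hsub]
  · refine sum_congr rfl (fun k hk => ?_)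
    rw [mem_range] at hk
    rw [mul_assoc, term_eq n k (by omega), mul_assoc]
  · intro k _ hk
    rw [mem_range] at hk
    rw [Nat.choose_eq_zero_of_lt (show n < 2 * k by omega)]
    simp

lemma S_eq {p h : ℕ} (hp : p ≤ 2 * h) :
    S p = ∑ k ∈ range h, (-16) ^ k * (k.centralBinom : ℤ) ^ 2 * T k p := by
  unfold S
  rw [show ∑ n ∈ range p, (-1) ^ n * (42 * (n : ℤ) + 37) * a n = ∑ n ∈ range p, ∑ k ∈ range h,
      (-1) ^ n * (42 * (n : ℤ) + 37) *
        ((-16) ^ k * (k.centralBinom : ℤ) ^ 2 * (n.choose (2 * k) : ℤ) ^ 2) from ?_]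
  · rw [sum_comm]
    refine sum_congr rfl (fun k _ => ?_)
    unfold T
    rw [mul_sum]
    refine sum_congr rfl (fun n _ => ?_)
    ring
  · refine sum_congr rfl (fun n hn => ?_)
    rw [mem_range] at hn
    rw [a_eq (h := h) (by omega), mul_sum]

/-! ### The identity for `∑ (21k+8) C(2k,k)³` -/

/-- `s ν = ∑_{k ≤ ν} C(ν+k,ν)²` -/
def s (ν : ℕ) : ℤ := ∑ k ∈ range (ν + 1), ((ν + k).choose ν : ℤ) ^ 2

lemma wz_term (ν k : ℕ) :
    8 * (2 * (ν : ℤ) + 3) * ((ν + 1 + k).choose (ν + 1) : ℤ) ^ 2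
      - 4 * ((ν : ℤ) + 1) * ((ν + k).choose ν : ℤ) ^ 2
    = (8 * (k : ℤ) + 8 + 12 * ((ν : ℤ) + 1)) * ((ν + (k + 1)).choose (ν + 1) : ℤ) ^ 2
      - (8 * (k : ℤ) + 12 * ((ν : ℤ) + 1)) * ((ν + k).choose (ν + 1) : ℤ) ^ 2 := by
  have h1 := choose_rel (ν + k) ν
  rw [show ν + (k + 1) = ν + k + 1 by ring, show ν + 1 + k = ν + k + 1 by ring,
    show ((ν + k + 1).choose (ν + 1) : ℤ) = (ν + k).choose ν + (ν + k).choose (ν + 1) by
      rw [Nat.choose_succ_succ]; push_cast; ring]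
  push_cast at h1
  generalize ((ν + k).choose ν : ℤ) = x at *
  generalize ((ν + k).choose (ν + 1) : ℤ) = y at *
  linear_combination (8 * x + 16 * y) * h1

lemma wz_sum (ν : ℕ) (K : ℕ) :
    8 * (2 * (ν : ℤ) + 3) * ∑ k ∈ range K, ((ν + 1 + k).choose (ν + 1) : ℤ) ^ 2
      - 4 * ((ν : ℤ) + 1) * ∑ k ∈ range K, ((ν + k).choose ν : ℤ) ^ 2
    = (8 * (K : ℤ) + 12 * ((ν : ℤ) + 1)) * ((ν + K).choose (ν + 1) : ℤ) ^ 2 := by
  induction K with
  | zero => simp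
  | succ K ih =>
    rw [sum_range_succ, sum_range_succ]
    have h := wz_term ν K
    push_cast at h ih ⊢
    linear_combination h + ih

lemma s_rec (ν : ℕ) :
    8 * (2 * (ν : ℤ) + 3) * s (ν + 1)
      = 4 * ((ν : ℤ) + 1) * s ν + (21 * (ν : ℤ) + 29) * ((ν + 1).centralBinom : ℤ) ^ 2 := by
  have h := wz_sum ν (ν + 1)
  unfold s
  rw [sum_range_succ (n := ν + 1)]
  rw [show ν + 1 + (ν + 1) = 2 * (ν + 1) by ring, ← Nat.centralBinom_eq_two_mul_choose]
  have h2 : ((ν + 1).centralBinom : ℤ) = 2 * ((ν + (ν + 1)).choose (ν + 1) : ℤ) := by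
    rw [Nat.centralBinom_eq_two_mul_choose, show 2 * (ν + 1) = ν + (ν + 1) + 1 by ring,
      Nat.choose_succ_succ, show ((ν + (ν + 1)).choose ν) = ((ν + (ν + 1)).choose (ν + 1)) by
        rw [Nat.choose_symm_add]]
    push_cast
    ring
  push_cast at h ⊢
  rw [h2] at *
  linear_combination h

lemma sum_identity (ν : ℕ) :
    ∑ k ∈ range (ν + 1), (21 * (k : ℤ) + 8) * (k.centralBinom : ℤ) ^ 3
      = 4 * ((ν : ℤ) + 1) * ((ν + 1).centralBinom : ℤ) * s ν := by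
  induction ν with
  | zero => simp [s, Nat.centralBinom]
  | succ ν ih =>
    rw [sum_range_succ, ih]
    have h1 := s_rec ν
    have h2 := centralBinom_rel (ν + 1)
    push_cast at *
    linear_combination (-((ν + 1).centralBinom : ℤ)) * h1 - 4 * s (ν + 1) * h2

/-! ### The two sums modulo `p²` and modulo `p` -/

lemma centralBinom_p {p : ℕ} (hp : p.Prime) : (p.centralBinom : ℤ) ≡ 2 [ZMOD p] := by
  haveI := Fact.mk hp
  have h := Choose.choose_modEq_choose_mod_mul_choose_div_nat (n := 2 * p) (k := p) (p := p)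
  rw [Nat.mul_mod_left, Nat.mod_self, Nat.mul_div_cancel _ hp.pos, Nat.div_self hp.pos] at h
  rw [Nat.centralBinom_eq_two_mul_choose]
  have h2 := (Int.natCast_modEq_iff).2 h
  simpa using h2

lemma dvd_term {p k : ℕ} (hp : p.Prime) (h0 : 0 < k) (hk : k < p) :
    (p : ℤ) ∣ ((p - 1 + k).choose (p - 1) : ℤ) := by
  have h1 : p ∣ (p - 1 + k).choose (p - 1) :=
    hp.dvd_choose_add (by omega) hk (by omega)
  exact_mod_cast h1

lemma s_mod {p : ℕ} (hp : p.Prime) : s (p - 1) ≡ 1 [ZMOD p] := by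
  unfold s
  have hp1 := hp.one_lt
  rw [show p - 1 + 1 = (p - 1) + 1 from rfl, sum_range_succ']
  have h0 : ∑ k ∈ range (p - 1), ((p - 1 + (k + 1)).choose (p - 1) : ℤ) ^ 2 ≡ 0 [ZMOD p] := by
    rw [Int.modEq_zero_iff_dvd]
    refine dvd_sum (fun k hk => ?_)
    rw [mem_range] at hk
    exact Dvd.dvd.pow (dvd_term hp (by omega) (by omega)) (by norm_num)
  have h1 := h0.add (Int.ModEq.refl (n := p) (((p - 1 + 0).choose (p - 1) : ℤ) ^ 2))
  simpa using h1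

lemma sum_cube_p {p : ℕ} (hp : p.Prime) :
    ∑ k ∈ range p, (21 * (k : ℤ) + 8) * (k.centralBinom : ℤ) ^ 3 ≡ 8 * p [ZMOD (p : ℤ) ^ 2] := by
  have hp1 := hp.one_lt
  obtain ⟨ν, rfl⟩ : ∃ ν, p = ν + 1 := ⟨p - 1, by omega⟩
  rw [sum_identity]
  have h1 := centralBinom_p hp
  have h2 := s_mod hp
  rw [Nat.add_sub_cancel] at h2
  have h3 := h1.mul h2
  rw [Int.modEq_iff_dvd] at h3 ⊢
  obtain ⟨w, hw⟩ := h3
  refine ⟨4 * w, ?_⟩
  push_cast at *
  linear_combination 4 * ((ν : ℤ) + 1) * hw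

lemma sum_cube_half {p : ℕ} (hp : p.Prime) (hodd : Odd p) :
    ∑ k ∈ range ((p + 1) / 2), (21 * (k : ℤ) + 8) * (k.centralBinom : ℤ) ^ 3
      ≡ 8 * p [ZMOD (p : ℤ) ^ 2] := by
  refine Int.ModEq.trans ?_ (sum_cube_p hp)
  have hsub : range ((p + 1) / 2) ⊆ range p := by
    rw [range_subset_range]
    have := hp.one_lt
    omega
  rw [← sum_sdiff hsub]
  rw [Int.modEq_iff_dvd, add_sub_cancel_right]
  refine dvd_sum (fun k hk => ?_)
  rw [mem_sdiff, mem_range, mem_range] at hk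
  refine Dvd.dvd.mul_left ?_ _
  have h1 : p ∣ k.centralBinom := by
    rw [Nat.centralBinom_eq_two_mul_choose, two_mul]
    exact hp.dvd_choose_add hk.1 hk.1 (by omega)
  have h2 : (p : ℤ) ∣ (k.centralBinom : ℤ) := by exact_mod_cast h1
  exact (pow_dvd_pow_of_dvd h2 2).trans (pow_dvd_pow _ (by norm_num))

lemma centralBinom_zmod {p h : ℕ} [Fact p.Prime] (hp : p = 2 * h + 1) (k : ℕ) (hk : k ≤ h) :
    ((k.centralBinom : ℕ) : ZMod p) = (-4) ^ k * (h.choose k : ZMod p) := by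
  induction k with
  | zero => simp
  | succ k ih =>
    have ih := ih (by omega)
    have hne : ((k + 1 : ℕ) : ZMod p) ≠ 0 := by
      rw [Ne, ZMod.natCast_eq_zero_iff]
      exact Nat.not_dvd_of_pos_of_lt (by omega) (by omega)
    refine mul_left_cancel₀ hne ?_
    have h1 : ((k + 1 : ℕ) : ZMod p) * ((k + 1).centralBinom : ℕ)
        = 2 * (2 * k + 1) * (k.centralBinom : ℕ) := by
      exact_mod_cast congrArg (fun z : ℕ => (z : ZMod p)) (Nat.succ_mul_centralBinom_succ k)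
    have h2 : ((k + 1 : ℕ) : ZMod p) * (h.choose (k + 1) : ZMod p)
        = ((h : ZMod p) - k) * (h.choose k : ZMod p) := by
      have := congrArg (fun z : ℤ => (z : ZMod p)) (choose_rel h k)
      push_cast at this ⊢
      exact this
    have h3 : (2 : ZMod p) * h = -1 := by
      have : ((2 * h + 1 : ℕ) : ZMod p) = 0 := by rw [← hp]; simp
      push_cast at this
      linear_combination this
    rw [h1, ih]
    have : ((k + 1 : ℕ) : ZMod p) * ((-4) ^ (k + 1) * (h.choose (k + 1) : ZMod p))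
        = (-4) ^ (k + 1) * (((k + 1 : ℕ) : ZMod p) * (h.choose (k + 1) : ZMod p)) := by ring
    rw [this, h2, pow_succ]
    linear_combination (2 * (-4) ^ k * (h.choose k : ZMod p)) * h3

lemma sum_central_mod {p : ℕ} (hp : p.Prime) (hodd : Odd p) :
    ∑ k ∈ range ((p + 1) / 2), 16 ^ k * (k.centralBinom : ℤ) ≡ (-63) ^ (p / 2) [ZMOD p] := by
  haveI := Fact.mk hp
  obtain ⟨h, hh⟩ := hodd
  rw [show (p + 1) / 2 = h + 1 by omega, show p / 2 = h by omega]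
  rw [← ZMod.intCast_eq_intCast_iff]
  push_cast
  rw [show ((-63 : ZMod p)) = (-64) + 1 by norm_num, add_pow]
  refine sum_congr rfl (fun k hk => ?_)
  rw [mem_range] at hk
  have := centralBinom_zmod hh k (by omega)
  rw [this, one_pow, mul_one, ← mul_assoc, ← mul_pow]
  norm_num

lemma jacobi_eq {p : ℕ} (hp : p.Prime) (hodd : Odd p) (h3 : p ≠ 3) :
    jacobiSym (-63) p = jacobiSym (p : ℤ) 7 := by
  have e1 : (-63 : ℤ) = -(3 ^ 2 * ((7 : ℕ) : ℤ)) := by norm_num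
  have hg : (3 : ℤ).gcd p = 1 := by
    have : Nat.Coprime 3 p := (Nat.coprime_primes Nat.prime_three hp).2 (Ne.symm h3)
    rw [Int.gcd_eq_natAbs]
    simpa using this
  rw [e1, jacobiSym.neg _ hodd, jacobiSym.mul_left, jacobiSym.sq_one' hg, one_mul,
    jacobiSym.quadratic_reciprocity (by decide) hodd,
    ZMod.χ₄_eq_neg_one_pow (Nat.odd_iff.1 hodd), ← mul_assoc, ← pow_add]
  have : Even (p / 2 + 7 / 2 * (p / 2)) := ⟨2 * (p / 2), by norm_num; ring⟩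
  rw [this.neg_one_pow, one_mul]

lemma pow_mod {p : ℕ} (hp : p.Prime) (hodd : Odd p) (h3 : p ≠ 3) :
    (-63) ^ (p / 2) ≡ jacobiSym (p : ℤ) 7 [ZMOD p] := by
  haveI := Fact.mk hp
  rw [← jacobi_eq hp hodd h3, ← jacobiSym.legendreSym.to_jacobiSym,
    ← ZMod.intCast_eq_intCast_iff, legendreSym.eq_pow]
  push_cast
  rfl

/-- The congruence holds for every odd prime other than `3`. -/
lemma main_odd {p : ℕ} (hp : p.Prime) (hodd : Odd p) (h3 : p ≠ 3) :
    S p ≡ p * (21 * jacobiSym (p : ℤ) 7 + 16) [ZMOD (p : ℤ) ^ 2] := by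
  have hp1 := hp.one_lt
  rw [S_eq (h := (p + 1) / 2) (by omega)]
  have h1 : ∑ k ∈ range ((p + 1) / 2), (-16) ^ k * (k.centralBinom : ℤ) ^ 2 * T k p ≡
      ∑ k ∈ range ((p + 1) / 2), (2 * (21 * k + 8) * (k.centralBinom : ℤ) ^ 3
        + 21 * p * 16 ^ k * (k.centralBinom : ℤ)) [ZMOD (p : ℤ) ^ 2] := by
    rw [Int.modEq_iff_dvd, ← sum_sub_distrib]
    refine dvd_sum (fun k hk => ?_)
    rw [mem_range] at hk
    have := T_mod hp hodd k (by obtain ⟨j, hj⟩ := hodd; omega)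
    rwa [Int.modEq_iff_dvd] at this
  refine h1.trans ?_
  rw [sum_add_distrib]
  have h2 := sum_cube_half hp hodd
  have h4 := (sum_central_mod hp hodd).trans (pow_mod hp hodd h3)
  rw [Int.modEq_iff_dvd] at h2 h4 ⊢
  obtain ⟨u, hu⟩ := h2
  obtain ⟨v, hv⟩ := h4
  refine ⟨2 * u + 21 * v, ?_⟩
  have e1 : ∑ k ∈ range ((p + 1) / 2), 2 * (21 * (k : ℤ) + 8) * (k.centralBinom : ℤ) ^ 3
      = 2 * ∑ k ∈ range ((p + 1) / 2), (21 * (k : ℤ) + 8) * (k.centralBinom : ℤ) ^ 3 := by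
    rw [mul_sum]
    exact sum_congr rfl (fun k _ => by ring)
  have e2 : ∑ k ∈ range ((p + 1) / 2), 21 * (p : ℤ) * 16 ^ k * (k.centralBinom : ℤ)
      = 21 * p * ∑ k ∈ range ((p + 1) / 2), 16 ^ k * (k.centralBinom : ℤ) := by
    rw [mul_sum]
    exact sum_congr rfl (fun k _ => by ring)
  rw [e1, e2]
  linear_combination 2 * hu + 21 * (p : ℤ) * hv

lemma jac2 : jacobiSym 2 7 = 1 := by norm_num

lemma jac3 : jacobiSym 3 7 = -1 := by norm_num

/-- **Sun's congruence.**  For every prime `p ≠ 7`,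
`∑_{k=0}^{p-1} (-1)^k (42k+37) a(k) ≡ p (21 (p/7) + 16) (mod p²)`, where
`a(n) = ∑_{0 ≤ k ≤ n/2} (-16)^k C(n,k)² C(n-k,k)²`. -/
theorem result (p : ℕ) (hp : p.Prime) (_h7 : p ≠ 7) :
    S p ≡ p * (21 * jacobiSym (p : ℤ) 7 + 16) [ZMOD (p : ℤ) ^ 2] := by
  rcases hp.eq_two_or_odd' with rfl | hodd
  · have : S 2 = -42 := by decide
    rw [this]
    push_cast
    rw [jac2]
    decide
  · by_cases h3 : p = 3
    · subst h3
      have : S 3 = -7665 := by decide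
      rw [this]
      push_cast
      rw [jac3]
      decide
    · exact main_odd hp hodd h3

end Pool.Agent.Results.MP_07dc7c_nt.SunCongruence
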